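import Pool.Agent.W_MP_94ebd3_co.KOne
import Pool.Agent.W_MP_94ebd3_co.KTwo
import Pool.Agent.W_MP_94ebd3_co.KThree

/-!
Complete answer to Q1 of MP_94ebd3_co: of the three configurations only the third one,
`x + y = z`, `y = t * x`, is Ramsey partition regular in `(x, y) | z, t`.
-/

set_option autoImplicit false

namespace Pool.Agent.Results.MP_94ebd3_co.FullAnswer

/-- The formula `φ(x, y, z, t)` is Ramsey partition regular in `(x, y) | z, t`: for every finite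
colouring `c` of the positive integers there are a colour `i`, an infinite set `H` of colour `i`
and a colour `j` such that for all `x < y` in `H` there are `z, t` of colour `j` with
`φ(x, y, z, t)`. -/
def RamseyPR (φ : ℕ+ → ℕ+ → ℕ+ → ℕ+ → Prop) : Prop :=
  ∀ (r : ℕ) (c : ℕ+ → Fin r), ∃ (i : Fin r) (H : Set ℕ+) (j : Fin r),
    H.Infinite ∧ (∀ h ∈ H, c h = i) ∧
      ∀ x ∈ H, ∀ y ∈ H, x < y → ∃ z t : ℕ+, c z = j ∧ c t = j ∧ φ x y z t

/-- `-x + y = z` and `x y = t`. -/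
def phi1 (x y z t : ℕ+) : Prop := -(x : ℤ) + (y : ℤ) = (z : ℤ) ∧ x * y = t

/-- `-x + y = z` and `y = t x`. -/
def phi2 (x y z t : ℕ+) : Prop := -(x : ℤ) + (y : ℤ) = (z : ℤ) ∧ y = t * x

/-- `x + y = z` and `y = t x`. -/
def phi3 (x y z t : ℕ+) : Prop := x + y = z ∧ y = t * x

/-- A colouring that defeats every infinite set, monochromatic or not, defeats `RamseyPR`. -/
theorem not_ramseyPR {φ : ℕ+ → ℕ+ → ℕ+ → ℕ+ → Prop}
    (h : ∃ (r : ℕ) (c : ℕ+ → Fin r), ∀ H : Set ℕ+, H.Infinite → ∀ j : Fin r,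
      ∃ x ∈ H, ∃ y ∈ H, x < y ∧ ¬ ∃ z t : ℕ+, c z = j ∧ c t = j ∧ φ x y z t) :
    ¬ RamseyPR φ := by
  obtain ⟨r, c, hc⟩ := h
  intro hR
  obtain ⟨i, H, j, hinf, -, hH⟩ := hR r c
  obtain ⟨x, hx, y, hy, hxy, hno⟩ := hc H hinf j
  exact hno (hH x hx y hy hxy)

/-- Neither `-x + y = z`, `x y = t` nor `-x + y = z`, `y = t x` is Ramsey partition regular, but
`x + y = z`, `y = t x` is. -/
theorem result : ¬ RamseyPR phi1 ∧ ¬ RamseyPR phi2 ∧ RamseyPR phi3 := by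
  refine ⟨not_ramseyPR MP94.diffProd, not_ramseyPR MP94.KTwo.diffRatio, fun r c => ?_⟩
  obtain ⟨i, H, hinf, hcol, hH⟩ := MP94.KThree.sumRatio r c
  exact ⟨i, H, i, hinf, hcol, hH⟩

end Pool.Agent.Results.MP_94ebd3_co.FullAnswer
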